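import Pool.Agent.H1.PF.Main

namespace Pool.Agent.Results.MP_913d7c_lc.CardinalityPreserving

open Set Pool.Agent.H87.PFinAlg PFin

/-- `C` is a closed unbounded subset of the linear order `Ω`. -/
def IsClub {Ω : Type} [LinearOrder Ω] (C : Set Ω) : Prop :=
  (∀ α, ∃ δ ∈ C, α < δ) ∧ ∀ D ⊆ C, D.Nonempty → ∀ s, IsLUB D s → s ∈ C

/-- Let `Ω` have cardinality `ℵ₁`. Every cardinality-preserving automorphism `π` of
`P(Ω)/Fin` has a nontrivial fixed point: there is an infinite set `A` with infinite complement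
and `π [A] = [A]`. Moreover, for every well-order of `Ω` of type `ω₁`, `π` fixes the class of
the initial segment of `δ` for all `δ` in a closed unbounded set. -/
theorem result {Ω : Type} (hΩ : Cardinal.mk Ω = Cardinal.aleph 1) (π : PFin Ω ≃o PFin Ω)
    (hcp : CardinalityPreserving π) :
    (∃ A : Set Ω, A.Infinite ∧ Aᶜ.Infinite ∧ π (PFin.mk A) = PFin.mk A) ∧
      ∀ (_ : LinearOrder Ω) (_ : WellFoundedLT Ω), (∀ a : Ω, (Iio a).Countable) →
        ∃ C : Set Ω, IsClub C ∧ ∀ δ ∈ C, π (PFin.mk (Iio δ)) = PFin.mk (Iio δ) := by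
  have hu : ¬ (univ : Set Ω).Countable := not_countable_univ hΩ
  constructor
  · obtain ⟨hlo, hwf, hc⟩ := exists_order hΩ
    obtain ⟨g, γ, hg⟩ := H1.PF.fixes hc hu hcp.ctblPres
    have hinf : (univ : Set Ω).Infinite := fun h => hu h.countable
    obtain ⟨B, _, hBc, hB⟩ := Set.Infinite.exists_subset_countable_infinite hinf
    obtain ⟨γ', hγ'⟩ := exists_bound hc hu hBc
    obtain ⟨δ, hδ, hcl⟩ := exists_closed hc hu g (max γ γ')
    refine ⟨Iio δ, ?_, ?_, hg δ (lt_of_le_of_lt (le_max_left _ _) hδ) hcl⟩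
    · intro h
      apply hB
      refine h.subset fun a ha => ?_
      exact lt_trans (hγ' ha) (lt_of_le_of_lt (le_max_right _ _) hδ)
    · intro h
      apply hu
      rw [← union_compl_self (Iio δ)]
      exact (hc δ).union h.countable
  · intro hlo hwf hc
    obtain ⟨g, γ, hg⟩ := H1.PF.fixes hc hu hcp.ctblPres
    refine ⟨{δ | γ < δ ∧ ∀ β < δ, g β < δ}, ⟨?_, ?_⟩, fun δ hδ => hg δ hδ.1 hδ.2⟩
    · intro α
      obtain ⟨δ, h3, h4⟩ := exists_closed hc hu g (max α γ)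
      exact ⟨δ, ⟨lt_of_le_of_lt (le_max_right _ _) h3, h4⟩, lt_of_le_of_lt (le_max_left _ _) h3⟩
    · intro D hD hDne s hs
      obtain ⟨d, hd⟩ := hDne
      refine ⟨lt_of_lt_of_le (hD hd).1 (hs.1 hd), fun β hβ => ?_⟩
      obtain ⟨d', hd', h3⟩ := (lt_isLUB_iff hs).1 hβ
      exact lt_of_lt_of_le ((hD hd').2 β h3) (hs.1 hd')

end Pool.Agent.Results.MP_913d7c_lc.CardinalityPreserving
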