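import Pool.Agent.H1.PF.Katowice

namespace Pool.Agent.Results.MP_913d7c_lc.KatowiceEquivalence

open Set Pool.Agent.H87.PFinAlg PFin

/-- Let `Ω` have cardinality `ℵ₁`. Some automorphism of `P(Ω)/Fin` has no nontrivial fixed
point if and only if `P(ℕ)/Fin` and `P(Ω)/Fin` are isomorphic. -/
theorem result {Ω : Type} (hΩ : Cardinal.mk Ω = Cardinal.aleph 1) :
    (∃ π : PFin Ω ≃o PFin Ω, NoNontrivialFixedPoint π) ↔ Nonempty (PFin ℕ ≃o PFin Ω) := by
  constructor
  · rintro ⟨π, hπ⟩
    apply H1.PF.iso_of_not_cp hΩ π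
    intro hcp
    have hu : ¬ (univ : Set Ω).Countable := not_countable_univ hΩ
    obtain ⟨hlo, hwf, hc⟩ := exists_order hΩ
    obtain ⟨g, γ, hg⟩ := H1.PF.fixes hc hu hcp.ctblPres
    have hinf : (univ : Set Ω).Infinite := fun h => hu h.countable
    obtain ⟨B, _, hBc, hB⟩ := Set.Infinite.exists_subset_countable_infinite hinf
    obtain ⟨γ', hγ'⟩ := exists_bound hc hu hBc
    obtain ⟨δ, hδ, hcl⟩ := exists_closed hc hu g (max γ γ')
    rcases hπ _ (hg δ (lt_of_le_of_lt (le_max_left _ _) hδ) hcl) with h | h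
    · apply hB
      refine h.subset fun a ha => ?_
      exact lt_trans (hγ' ha) (lt_of_le_of_lt (le_max_right _ _) hδ)
    · apply hu
      rw [← union_compl_self (Iio δ)]
      exact (hc δ).union h.countable
  · rintro ⟨i⟩
    obtain ⟨s, hs⟩ := H1.PF.exists_shift
    refine ⟨i.symm.trans (s.trans i), fun A hA => ?_⟩
    obtain ⟨B, hB⟩ : ∃ B : Set ℕ, i.symm (PFin.mk A) = PFin.mk B := by
      induction i.symm (PFin.mk A) using PFin.ind with
      | h B => exact ⟨B, rfl⟩
    have h1 : s (PFin.mk B) = PFin.mk B := by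
      have h2 : i (s (i.symm (PFin.mk A))) = PFin.mk A := hA
      rw [hB] at h2
      have h4 : i.symm (i (s (PFin.mk B))) = PFin.mk B := by rw [h2, hB]
      rwa [OrderIso.symm_apply_apply] at h4
    have h3 : PFin.mk A = i (PFin.mk B) := by
      rw [← hB, OrderIso.apply_symm_apply]
    rcases hs B h1 with h | h
    · left
      rw [← mk_eq_bot] at h ⊢
      rw [h3, h]
      exact map_bot i
    · right
      rw [← mk_eq_bot, ← mk_compl, compl_eq_bot] at h ⊢
      rw [h3, h]
      exact map_top i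

end Pool.Agent.Results.MP_913d7c_lc.KatowiceEquivalence
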